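import Pool.Agent.Helper46.UC.Defs

/-! # Packet DIF (MP_57a173_lc) -/

noncomputable section

namespace UL.UC.PkDIF

open UL UL.UC

variable {I : Type} [LinearOrder I]

theorem val_dep {F : ℕ → Finset I} {x : Pt I → ℕ → Bool} (hx : Rd F x) {D : Set I}
    {q q' : Finset (I × ℕ)} {w w' : Pt I} {n : ℕ}
    (hw : ∀ ξ ∈ F n, ξ ∈ D → ∀ i, i < n → w ξ i = w' ξ i)
    (hq : ∀ ξ ∈ F n, ξ ∉ D → ∀ i, i < n → ((ξ, i) ∈ q ↔ (ξ, i) ∈ q')) :
    val x D q w n = val x D q' w' n := by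
  unfold val ext
  apply hx
  intro ξ hξ i hi
  show (if i < n then mg D q w ξ i else true) = (if i < n then mg D q' w' ξ i else true)
  rw [if_pos hi, if_pos hi]
  unfold mg
  by_cases h : ξ ∈ D
  · rw [if_pos h, if_pos h]
    exact hw ξ hξ h i hi
  · rw [if_neg h, if_neg h]
    exact decide_eq_decide.2 (hq ξ hξ h i hi)

theorem val_lc {F : ℕ → Finset I} {x : Pt I → ℕ → Bool} (hx : Rd F x) (D : Set I)
    (q : Finset (I × ℕ)) (n : ℕ) : LC D (fun w => val x D q w n) := by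
  classical
  refine ⟨(F n : Set I) ∩ D, Set.inter_subset_right,
    (Finset.countable_toSet (F n)).mono Set.inter_subset_left, fun z => ?_⟩
  refine ⟨(F n).filter (fun ξ => ξ ∈ D), ?_, n, fun z' hz' => ?_⟩
  · intro ξ hξ
    have h := Finset.mem_filter.1 (Finset.mem_coe.1 hξ)
    exact ⟨Finset.mem_coe.2 h.1, h.2⟩
  · apply val_dep hx
    · intro ξ hξ hD i hi
      exact hz' ξ (Finset.mem_filter.2 ⟨hξ, hD⟩) i hi
    · intro ξ _ _ i _
      exact Iff.rfl

omit [LinearOrder I] in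
theorem res_lc {D : Set I} {y : Pt I → ℕ → Bool} (h : ∀ i, LC D (fun w => y w i)) (n : ℕ) :
    LC D (fun w => res (y w) n) := by
  induction n with
  | zero =>
    have e : (fun w : Pt I => res (y w) 0) = fun _ => [] := by funext w; rw [res_zero]
    rw [e]
    exact LC.const _
  | succ n ih =>
    have e : (fun w : Pt I => res (y w) (n + 1)) = fun w => res (y w) n ++ [y w n] := by
      funext w; rw [res_succ]
    rw [e]
    exact LC.map₂ ih (h n) (fun a b => a ++ [b])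

theorem res_bits {y y' : ℕ → Bool} {n : ℕ} (h : res y n = res y' n) {i : ℕ} (hi : i < n) :
    y i = y' i := by
  have h1 := pre_res y n
  rw [h] at h1
  have h2 := h1 i (by rw [res_length]; exact hi)
  rw [res_get] at h2
  exact h2.symm

/-- The property. -/
def QQ (x : Pt I → ℕ → Bool) (D : Set I) (p : Finset (I × ℕ) × Finset (I × ℕ))
    (f : Pt I → Pt I) : Prop :=
  (∀ z, val x D p.1 (f z) = val x D p.2 (f z)) ∨
    ∃ d, ∀ z, (∀ i, i < d → val x D p.1 (f z) i = val x D p.2 (f z) i) ∧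
      val x D p.1 (f z) d ≠ val x D p.2 (f z) d

theorem QQ_open (x : Pt I → ℕ → Bool) (D : Set I) (p : Finset (I × ℕ) × Finset (I × ℕ)) :
    Opn D (QQ x D p) := by
  intro f g _ hQ _
  rcases hQ with h | ⟨d, h⟩
  · exact Or.inl fun z => h (g z)
  · exact Or.inr ⟨d, fun z => h (g z)⟩

theorem QQ_dense {F : ℕ → Finset I} {x : Pt I → ℕ → Bool} (hx : Rd F x) {D : Set I}
    (hD : IsLowerSet D) (p : Finset (I × ℕ) × Finset (I × ℕ)) : Dns D (QQ x D p) := by
  intro f hf
  by_cases h : ∀ z, val x D p.1 (f z) = val x D p.2 (f z)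
  · exact ⟨id, MD.id' D, Or.inl h⟩
  · push Not at h
    obtain ⟨z, hz⟩ := h
    have hex : ∃ i, val x D p.1 (f z) i ≠ val x D p.2 (f z) i := by
      by_contra hc
      push Not at hc
      exact hz (funext hc)
    classical
    obtain ⟨d, hd1, hd2⟩ : ∃ d, val x D p.1 (f z) d ≠ val x D p.2 (f z) d ∧
        ∀ i, i < d → val x D p.1 (f z) i = val x D p.2 (f z) i := by
      refine ⟨Nat.find hex, Nat.find_spec hex, fun i hi => ?_⟩
      have := Nat.find_min hex hi
      push Not at this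
      exact this
    have h1 : LC D (fun w => (res (val x D p.1 (f w)) (d + 1), res (val x D p.2 (f w)) (d + 1))) :=
      LC.prod (LC.comp hD (res_lc (fun i => val_lc hx D p.1 i) (d + 1)) hf.1)
        (LC.comp hD (res_lc (fun i => val_lc hx D p.2 i) (d + 1)) hf.1)
    obtain ⟨A, hA, -, h2⟩ := LC_iff.1 h1
    obtain ⟨τ, t1, t2, t3, t4⟩ := h2 z
    refine ⟨J τ, J_MD t1 (t2.trans hA), Or.inr ⟨d, fun z' => ?_⟩⟩
    have h3 := t4 (J τ z') (J_mem_B τ z')
    have h4 := (Prod.mk.injEq _ _ _ _ ▸ h3 :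
      res (val x D p.1 (f (J τ z'))) (d + 1) = res (val x D p.1 (f z)) (d + 1) ∧
      res (val x D p.2 (f (J τ z'))) (d + 1) = res (val x D p.2 (f z)) (d + 1))
    constructor
    · intro i hi
      show val x D p.1 (f (J τ z')) i = val x D p.2 (f (J τ z')) i
      rw [res_bits h4.1 (show i < d + 1 by omega), res_bits h4.2 (show i < d + 1 by omega)]
      exact hd2 i hi
    · show val x D p.1 (f (J τ z')) d ≠ val x D p.2 (f (J τ z')) d
      rw [res_bits h4.1 (show d < d + 1 by omega), res_bits h4.2 (show d < d + 1 by omega)]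
      exact hd1

theorem fd_self (a : ℕ → Bool) : fd a a = 0 := by
  unfold fd
  rw [dif_neg]
  rintro ⟨i, hi⟩
  exact hi rfl

theorem fd_eq {a b : ℕ → Bool} {d : ℕ} (h1 : ∀ i, i < d → a i = b i) (h2 : a d ≠ b d) :
    fd a b = d := by
  unfold fd
  rw [dif_pos ⟨d, h2⟩]
  rw [Nat.find_eq_iff]
  exact ⟨h2, fun i hi hc => hc (h1 i hi)⟩

theorem exists_enum (A : Set I) (hA : A.Countable) :
    ∃ e : ℕ → Finset (I × ℕ) × Finset (I × ℕ), ∀ q q' : Finset (I × ℕ),
      (∀ p ∈ q, p.1 ∈ A) → (∀ p ∈ q', p.1 ∈ A) → ∃ i, e i = (q, q') := by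
  have hS : (A ×ˢ (Set.univ : Set ℕ)).Countable := hA.prod Set.countable_univ
  have hT : {q : Finset (I × ℕ) | ∀ p ∈ q, p.1 ∈ A}.Countable := by
    have h1 := (Set.countable_ofPred_finite_subset hS).preimage_of_injOn
      (f := fun q : Finset (I × ℕ) => (q : Set (I × ℕ))) Finset.coe_injective.injOn
    refine h1.mono ?_
    intro q hq
    refine ⟨Finset.finite_toSet q, fun p hp => ⟨hq p (Finset.mem_coe.1 hp), Set.mem_univ _⟩⟩
  obtain ⟨e, he⟩ := (hT.prod hT).exists_eq_range ⟨(∅, ∅), ⟨by simp, by simp⟩⟩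
  refine ⟨e, fun q q' hq hq' => ?_⟩
  have : (q, q') ∈ Set.range e := by rw [← he]; exact ⟨hq, hq'⟩
  exact this

theorem dif : P_DIF := by
  intro I _ D F x hD hFPS hx
  classical
  have hA : ({ξ | ∃ n, ξ ∈ F n} : Set I).Countable := by
    have e : ({ξ | ∃ n, ξ ∈ F n} : Set I) = ⋃ n, (F n : Set I) := by
      ext ξ; simp
    rw [e]
    exact Set.countable_iUnion fun n => Finset.countable_toSet _
  obtain ⟨e, he⟩ := exists_enum {ξ | ∃ n, ξ ∈ F n} hA
  obtain ⟨f, hf, -, hcov⟩ := hFPS (fun i => QQ x D (e i)) (fun i => QQ_dense hx hD (e i))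
    (fun i => QQ_open x D (e i))
  refine ⟨f, hf, fun q q' => ?_⟩
  have hfil : ∀ (q : Finset (I × ℕ)) (w : Pt I),
      val x D q w = val x D (q.filter fun p => ∃ n, p.1 ∈ F n) w := by
    intro q w
    funext n
    apply val_dep hx
    · intro ξ _ _ i _
      exact rfl
    · intro ξ hξ _ i _
      rw [Finset.mem_filter]
      exact ⟨fun h => ⟨h, n, hξ⟩, fun h => h.1⟩
  obtain ⟨i, hi⟩ := he (q.filter fun p => ∃ n, p.1 ∈ F n) (q'.filter fun p => ∃ n, p.1 ∈ F n)
    (fun p hp => (Finset.mem_filter.1 hp).2) (fun p hp => (Finset.mem_filter.1 hp).2)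
  have efun : (fun w => fd (val x D q (f w)) (val x D q' (f w))) =
      fun w => fd (val x D (q.filter fun p => ∃ n, p.1 ∈ F n) (f w))
        (val x D (q'.filter fun p => ∃ n, p.1 ∈ F n) (f w)) := by
    funext w
    rw [hfil q, hfil q']
  rw [efun]
  obtain ⟨A, h1, h2, h3⟩ := hcov i
  rw [LC_iff]
  refine ⟨A, h1, h2, fun z => ?_⟩
  obtain ⟨τ, t1, t2, t3, t4⟩ := h3 z
  refine ⟨τ, t1, t2, t3, fun z' hz' => ?_⟩
  obtain ⟨w, rfl⟩ := mem_B_iff.1 t3
  obtain ⟨w', rfl⟩ := mem_B_iff.1 hz'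
  rw [hi] at t4
  rcases t4 with h | ⟨d, h⟩
  · have a1 := h w
    have a2 := h w'
    simp only [Function.comp_apply] at a1 a2
    show fd _ _ = fd _ _
    rw [a1, a2, fd_self, fd_self]
  · have a1 := h w
    have a2 := h w'
    exact (fd_eq a2.1 a2.2).trans (fd_eq a1.1 a1.2).symm

end UL.UC.PkDIF
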