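import Pool.Agent.Helper27.UC.Goals8

/-!
# Project UC part 6 (MP_d3128a_ag), packet SPLT
-/

set_option autoImplicit false

namespace Pool.Agent.Helper13.UC.SPLT

open Pool.Agent.Helper27.UC

theorem split (A : Multiset ℕ) (i : ℕ → ℕ) (h : ∀ v, 4 * i v ≤ A.count v) :
    ∃ A2 A0 : Multiset ℕ, A = 4 • A2 + A0 ∧ ∀ v, A0.count v = A.count v - 4 * i v := by
  classical
  obtain ⟨A2, hA2⟩ : ∃ A2 : Multiset ℕ, A2 = ∑ v ∈ A.toFinset, Multiset.replicate (i v) v := ⟨_, rfl⟩
  have hc : ∀ v, A2.count v = i v := by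
    intro v
    rw [hA2, Multiset.count_sum']
    simp only [Multiset.count_replicate]
    rw [Finset.sum_ite_eq' A.toFinset v]
    by_cases hv : v ∈ A
    · rw [if_pos (Multiset.mem_toFinset.2 hv)]
    · rw [if_neg (fun h1 => hv (Multiset.mem_toFinset.1 h1))]
      have h1 := h v
      rw [Multiset.count_eq_zero_of_notMem hv] at h1
      omega
  have hle : 4 • A2 ≤ A := by
    rw [Multiset.le_iff_count]
    intro v
    rw [Multiset.count_nsmul, hc]
    exact h v
  refine ⟨A2, A - 4 • A2, (add_tsub_cancel_of_le hle).symm, fun v => ?_⟩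
  rw [Multiset.count_sub, Multiset.count_nsmul, hc]

theorem t : S_SPLT := by
  intro T A B h
  obtain ⟨A2, A0, hA, hA0⟩ := split A
    (fun v => if T v + 4 ≤ A.count v then (A.count v - T v) / 4 else A.count v / 4) (by
      intro v
      show 4 * (if T v + 4 ≤ A.count v then (A.count v - T v) / 4 else A.count v / 4) ≤ A.count v
      split_ifs <;> omega)
  obtain ⟨B2, B0, hB, hB0⟩ := split B
    (fun v => if T v + 4 ≤ A.count v then B.count v / 4 else (B.count v - T v) / 4) (by
      intro v
      show 4 * (if T v + 4 ≤ A.count v then B.count v / 4 else (B.count v - T v) / 4) ≤ B.count v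
      split_ifs <;> omega)
  refine ⟨A2, A0, B2, B0, hA, hB, fun v hv => ?_⟩
  have h1 := h v hv
  rw [Multiset.count_add] at h1
  rw [Multiset.count_add, hA0, hB0]
  by_cases hT : T v + 4 ≤ A.count v
  · rw [if_pos hT, if_pos hT]
    omega
  · rw [if_neg hT, if_neg hT]
    omega

end Pool.Agent.Helper13.UC.SPLT
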