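import Pool.Agent.Helper27.UC.Goals

/-!
PROJECT UC, packet WRO (helper13): a general point is not a zero of high order (Wronskian argument; the
hypothesis SEM is not needed).
-/

set_option autoImplicit false

noncomputable section

namespace Pool.Agent.Helper13.UC.WRO

open Polynomial Module

section

variable {K : Type} [Field K] [CharZero K]

/-- the Wronskian with a fixed polynomial -/
def wr (a : Polynomial K) : Polynomial K →ₗ[K] Polynomial K where
  toFun f := derivative f * a - f * derivative a
  map_add' f g := by
    rw [derivative_add]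
    ring
  map_smul' c f := by
    rw [derivative_smul, RingHom.id_apply, smul_sub, smul_mul_assoc, smul_mul_assoc]

omit [CharZero K] in
theorem wr_apply (a f : Polynomial K) : wr a f = derivative f * a - f * derivative a := rfl

theorem natDegree_eq (a g : Polynomial K) (ha : a ≠ 0) (hg : g ≠ 0) (h : wr a g = 0) :
    g.natDegree = a.natDegree := by
  rw [wr_apply] at h
  have hX : ∀ p : Polynomial K, (X * derivative p).natDegree ≤ p.natDegree := by
    intro p
    rw [Polynomial.natDegree_le_iff_coeff_eq_zero]
    intro N hN
    cases N with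
    | zero => simp
    | succ N =>
      rw [coeff_X_mul, coeff_derivative, Polynomial.coeff_eq_zero_of_natDegree_lt hN, zero_mul]
  have hc : ∀ p : Polynomial K, (X * derivative p).coeff p.natDegree = p.natDegree * p.leadingCoeff := by
    intro p
    by_cases h0 : p.natDegree = 0
    · rw [h0]
      simp
    · obtain ⟨k, hk⟩ := Nat.exists_eq_succ_of_ne_zero h0
      rw [Polynomial.leadingCoeff, hk, coeff_X_mul, coeff_derivative]
      push_cast
      ring
  have e1 : (X * derivative g) * a = g * (X * derivative a) := by
    have : X * (derivative g * a - g * derivative a) = 0 := by rw [h, mul_zero]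
    linear_combination this
  have e2 : ((X * derivative g) * a).coeff (g.natDegree + a.natDegree) =
      (g * (X * derivative a)).coeff (g.natDegree + a.natDegree) := by rw [e1]
  rw [coeff_mul_add_eq_of_natDegree_le (hX g) le_rfl, coeff_mul_add_eq_of_natDegree_le le_rfl (hX a), hc g, hc a] at e2
  have hla : a.leadingCoeff ≠ 0 := leadingCoeff_ne_zero.mpr ha
  have hlg : g.leadingCoeff ≠ 0 := leadingCoeff_ne_zero.mpr hg
  rw [coeff_natDegree, coeff_natDegree] at e2
  have e3 : ((g.natDegree : K) - a.natDegree) * (g.leadingCoeff * a.leadingCoeff) = 0 := by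
    linear_combination e2
  rcases mul_eq_zero.mp e3 with h1 | h1
  · exact_mod_cast sub_eq_zero.mp h1
  · exact absurd h1 (mul_ne_zero hlg hla)

theorem eq_smul (a f : Polynomial K) (ha : a ≠ 0) (h : wr a f = 0) : ∃ c : K, f = c • a := by
  refine ⟨f.coeff a.natDegree / a.leadingCoeff, ?_⟩
  have hla : a.leadingCoeff ≠ 0 := leadingCoeff_ne_zero.mpr ha
  have haa : wr a a = 0 := by
    rw [wr_apply]
    ring
  set g := f - (f.coeff a.natDegree / a.leadingCoeff) • a with hg
  have h1 : wr a g = 0 := by
    rw [hg, map_sub, map_smul, h, haa, smul_zero, sub_zero]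
  by_contra hne
  have hg0 : g ≠ 0 := fun h0 => hne (sub_eq_zero.mp h0)
  have h2 := natDegree_eq a g ha hg0 h1
  have h3 : g.coeff a.natDegree = 0 := by
    rw [hg, coeff_sub, coeff_smul, smul_eq_mul, coeff_natDegree, div_mul_cancel₀ _ hla, sub_self]
  apply leadingCoeff_ne_zero.mpr hg0
  rw [leadingCoeff, h2, h3]

theorem main (n : ℕ) : ∀ U : Submodule K (Polynomial K), FiniteDimensional K U → finrank K U ≤ n →
    ∃ P : Polynomial K, P ≠ 0 ∧ ∀ p : K, P.eval p ≠ 0 → ∀ f ∈ U, (X - C p) ^ n ∣ f → f = 0 := by
  induction n with
  | zero =>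
    intro U hU h
    refine ⟨1, one_ne_zero, fun p _ f hf _ => ?_⟩
    have : U = ⊥ := Submodule.finrank_eq_zero.mp (Nat.le_zero.mp h)
    rw [this] at hf
    exact (Submodule.mem_bot K).mp hf
  | succ n ih =>
    intro U hU h
    by_cases hb : U = ⊥
    · refine ⟨1, one_ne_zero, fun p _ f hf _ => ?_⟩
      rw [hb] at hf
      exact (Submodule.mem_bot K).mp hf
    · obtain ⟨a, haU, ha⟩ := Submodule.exists_mem_ne_zero_of_ne_bot hb
      have haa : wr a a = 0 := by
        rw [wr_apply]
        ring
      have h1 : finrank K (U.map (wr a)) ≤ n := by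
        have e := LinearMap.finrank_range_add_finrank_ker ((wr a).domRestrict U)
        have e2 : LinearMap.range ((wr a).domRestrict U) = U.map (wr a) := LinearMap.range_domRestrict _ _
        rw [e2] at e
        have e3 : 0 < finrank K (LinearMap.ker ((wr a).domRestrict U)) := by
          by_contra hneg
          have h0 : finrank K (LinearMap.ker ((wr a).domRestrict U)) = 0 := by omega
          have h1 : LinearMap.ker ((wr a).domRestrict U) = ⊥ := Submodule.finrank_eq_zero.mp h0
          have h2 : (⟨a, haU⟩ : U) ∈ LinearMap.ker ((wr a).domRestrict U) := by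
            rw [LinearMap.mem_ker]
            exact haa
          rw [h1, Submodule.mem_bot] at h2
          exact ha (congrArg Subtype.val h2)
        omega
      obtain ⟨P, hP, hP2⟩ := ih (U.map (wr a)) inferInstance h1
      refine ⟨P * a, mul_ne_zero hP ha, fun p hp f hf hd => ?_⟩
      rw [eval_mul] at hp
      have hp1 : P.eval p ≠ 0 := left_ne_zero_of_mul hp
      have hp2 : a.eval p ≠ 0 := right_ne_zero_of_mul hp
      have h2 : wr a f = 0 := by
        refine hP2 p hp1 (wr a f) (Submodule.mem_map_of_mem hf) ?_
        rw [wr_apply]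
        refine dvd_sub ?_ ?_
        · refine Dvd.dvd.mul_right ?_ _
          have := pow_sub_one_dvd_derivative_of_pow_dvd hd
          simpa using this
        · refine Dvd.dvd.mul_right ?_ _
          exact dvd_trans (pow_dvd_pow _ (Nat.le_succ n)) hd
      obtain ⟨c, rfl⟩ := eq_smul a f ha h2
      have h3 : (c • a).eval p = 0 := by
        obtain ⟨q, hq⟩ := hd
        rw [hq, eval_mul, eval_pow]
        simp
      rw [eval_smul, smul_eq_mul] at h3
      rcases mul_eq_zero.mp h3 with h4 | h4
      · rw [h4, zero_smul]
      · exact absurd h4 hp2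

end

/-- packet WRO -/
theorem t : Helper27.UC.S_WRO := by
  intro K _ _ U hU
  obtain ⟨P, hP, h⟩ := main (finrank K U) U hU le_rfl
  have : ∃ p : K, P.eval p ≠ 0 := by
    by_contra hcon
    push Not at hcon
    exact hP (Polynomial.funext (fun r => by rw [hcon r, eval_zero]))
  obtain ⟨p, hp⟩ := this
  exact ⟨p, h p hp⟩

end Pool.Agent.Helper13.UC.WRO
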